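import Pool.Agent.Q178.HG.Def38

/-! The third Haar weight of a polynomial hypergroup can be arbitrarily close to one. -/

namespace Pool.Agent.Results.MP_382e70_an.ThirdWeightNearOne

open Pool.Agent.Q178.HG Pool.Agent.Q178.HG.Def38

theorem result (δ : ℝ) (hδ : 0 < δ) :
    ∃ a b c : ℕ → ℝ, PolynomialHypergroup a b c ∧ haar a c 3 < 1 + δ := by
  obtain ⟨s, hs, h⟩ := small hδ
  exact ⟨_, _, _, hyp4 hs, by rw [haar4 hs]; exact h⟩

end Pool.Agent.Results.MP_382e70_an.ThirdWeightNearOne
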